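import Mathlib
import Pool.Agent.R707.PMD

set_option autoImplicit false

namespace Pool.Agent.Results.MP_f8e529_co.RankFour

open Set Pool.Agent.R707.PMD

/-- Let `M` be a perfect matroid design (simple, flats of equal rank have equal size) on a finite
set, `B` a set with as many points as a hyperplane which is not itself a hyperplane.  If the rank
of `M` is at most four, or if (in any rank `r`) the set `B` contains some flat of rank `r-3`, then
some hyperplane meets `B` in a number of points that is not the size of a flat of rank `≤ r-2`. -/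
theorem result :
    ∀ (n : ℕ) (M : Matroid (Fin n)), M.E = Set.univ →
      (∀ F₁ F₂ : Set (Fin n), M.IsFlat F₁ → M.IsFlat F₂ → M.eRk F₁ = M.eRk F₂ →
        F₁.ncard = F₂.ncard) →
      (∀ F : Set (Fin n), M.IsFlat F → M.eRk F = 0 → F.ncard = 0) →
      (∀ F : Set (Fin n), M.IsFlat F → M.eRk F = 1 → F.ncard = 1) →
      ∀ B H₀ : Set (Fin n), M.IsFlat H₀ → M.eRk H₀ + 1 = M.eRk M.E →
        B.ncard = H₀.ncard →
        ¬ (M.IsFlat B ∧ M.eRk B + 1 = M.eRk M.E) →
        (M.eRk M.E ≤ 4 ∨ ∃ F : Set (Fin n), F ⊆ B ∧ M.IsFlat F ∧ M.eRk F + 3 = M.eRk M.E) →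
        ∃ H : Set (Fin n), M.IsFlat H ∧ M.eRk H + 1 = M.eRk M.E ∧
          ∀ F : Set (Fin n), M.IsFlat F → M.eRk F + 2 ≤ M.eRk M.E →
            (B ∩ H).ncard ≠ F.ncard := by
  intro n M hE hsame h0 h1 B H₀ hH₀ hrH₀ hB hBnot hcase
  simp only [eRk_eq] at *
  have hsame' : ∀ F₁ F₂ : Set (Fin n), M.IsFlat F₁ → M.IsFlat F₂ → rk M F₁ = rk M F₂ →
      F₁.ncard = F₂.ncard := fun F₁ F₂ a b c => hsame F₁ F₂ a b (by rw [c])
  have h0' : ∀ F, M.IsFlat F → rk M F = 0 → F.ncard = 0 := fun F a b => h0 F a (by rw [b]; rfl)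
  have h1' : ∀ F, M.IsFlat F → rk M F = 1 → F.ncard = 1 := fun F a b => h1 F a (by rw [b]; rfl)
  rw [hE] at hrH₀ hBnot hcase ⊢
  have hrH : rk M H₀ + 1 = rk M univ := by exact_mod_cast hrH₀
  have hBn : ¬ (M.IsFlat B ∧ rk M B + 1 = rk M univ) := by
    rintro ⟨a, b⟩; exact hBnot ⟨a, by exact_mod_cast b⟩
  have hc : rk M univ ≤ 4 ∨ ∃ F : Set (Fin n), F ⊆ B ∧ M.IsFlat F ∧ rk M F + 3 = rk M univ := by
    rcases hcase with h | ⟨F, a, b, c⟩
    · left; exact_mod_cast h
    · right; exact ⟨F, a, b, by exact_mod_cast c⟩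
  have hrk0 := rk_le M H₀
  -- the empty set and the singletons are flats
  have hempty : M.IsFlat (∅ : Set (Fin n)) ∧ rk M (∅ : Set (Fin n)) = 0 := by
    have hr : rk M (∅ : Set (Fin n)) = 0 := by
      have := rk_le M (∅ : Set (Fin n)); simpa using this
    have := h0' (M.closure ∅) (M.isFlat_closure _) (by rw [rk_closure, hr])
    rw [Set.ncard_eq_zero (Set.toFinite _)] at this
    exact ⟨this ▸ M.isFlat_closure _, hr⟩
  have hsing : ∀ x : Fin n, M.IsFlat ({x} : Set (Fin n)) ∧ rk M ({x} : Set (Fin n)) = 1 := by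
    intro x
    have hle : rk M ({x} : Set (Fin n)) ≤ 1 := by
      have := rk_le M ({x} : Set (Fin n)); simpa using this
    have hx : x ∈ M.closure {x} := sub_closure M hE _ rfl
    have hr : rk M ({x} : Set (Fin n)) = 1 := by
      rcases Nat.lt_or_ge (rk M ({x} : Set (Fin n))) 1 with h | h
      · exfalso
        have := h0' (M.closure {x}) (M.isFlat_closure _) (by rw [rk_closure]; omega)
        rw [Set.ncard_eq_zero (Set.toFinite _)] at this
        rw [this] at hx; exact hx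
      · omega
    have := h1' (M.closure {x}) (M.isFlat_closure _) (by rw [rk_closure, hr])
    obtain ⟨y, hy⟩ := Set.ncard_eq_one.1 this
    rw [hy] at hx
    have : M.closure {x} = {x} := by rw [hy, show x = y from hx]
    exact ⟨this ▸ M.isFlat_closure _, hr⟩
  -- the flat of rank `r - 3`
  have key : ∃ F : Set (Fin n), F ⊆ B ∧ M.IsFlat F ∧ rk M F + 3 = rk M univ := by
    rcases hc with h | h
    swap
    · exact h
    obtain ⟨r, hr⟩ : ∃ r, rk M univ = r := ⟨_, rfl⟩
    rw [hr] at h hrH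
    have hcases : r = 0 ∨ r = 1 ∨ r = 2 ∨ r = 3 ∨ r = 4 := by omega
    rcases hcases with rfl | rfl | rfl | rfl | rfl
    · omega
    · exfalso
      have := h0' H₀ hH₀ (by omega)
      rw [this, Set.ncard_eq_zero (Set.toFinite _)] at hB
      exact hBn ⟨hB ▸ hempty.1, by rw [hB, hempty.2, hr]⟩
    · exfalso
      have := h1' H₀ hH₀ (by omega)
      rw [this] at hB
      obtain ⟨x, hx⟩ := Set.ncard_eq_one.1 hB
      exact hBn ⟨hx ▸ (hsing x).1, by rw [hx, (hsing x).2, hr]⟩
    · exact ⟨∅, empty_subset _, hempty.1, by rw [hempty.2, hr]⟩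
    · have : B.ncard ≠ 0 := by omega
      obtain ⟨x, hx⟩ := Set.nonempty_of_ncard_ne_zero this
      exact ⟨{x}, singleton_subset_iff.2 hx, (hsing x).1, by rw [(hsing x).2, hr]⟩
  obtain ⟨F, hFB, hF, hFr⟩ := key
  by_contra hcon
  push Not at hcon
  refine main M hE hsame' (rk M F) hFr.symm h0' h1' B F H₀ hF rfl hFB hH₀ (by omega) hB ?_
  intro H hH hrH'
  obtain ⟨F', a, b, c⟩ := hcon H hH (by
    have : rk M H + 1 = rk M univ := by omega
    exact_mod_cast this)
  refine ⟨F', a, ?_, c⟩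
  have : rk M F' + 2 ≤ rk M univ := by exact_mod_cast b
  omega

end Pool.Agent.Results.MP_f8e529_co.RankFour
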